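import Mathlib
import Pool.Agent.H.MP_bac04d_nt.Main

namespace Pool.Agent.Results.MP_bac04d_nt.AllDegrees

theorem result (d : ℝ) (hd : 2 ≤ d) : ∃ (F : ℂ → ℂ) (a : ℕ → ℂ) (Q μ : ℝ),
    Differentiable ℂ F ∧ F ≠ 0 ∧
    (∀ s : ℂ, 1 < s.re → LSeriesSummable a s ∧ F s = LSeries a s) ∧
    (∀ σ₁ σ₂ : ℝ, ∃ C M : ℝ, ∀ s : ℂ, σ₁ ≤ s.re → s.re ≤ σ₂ → ‖F s‖ ≤ C * (1 + |s.im|) ^ M) ∧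
    0 < Q ∧ 0 ≤ μ ∧
    ∃ Φ : ℂ → ℂ, Differentiable ℂ Φ ∧
      (∀ s : ℂ, (∀ m : ℕ, (d : ℂ) / 2 * s + μ ≠ -m) →
        Φ s = (Q : ℂ) ^ s * Complex.Gamma ((d : ℂ) / 2 * s + μ) * F s) ∧
      ∀ s : ℂ, Φ s = starRingEnd ℂ (Φ (1 - starRingEnd ℂ s)) :=
  Pool.Agent.H.MP_bac04d_nt.main d hd

end Pool.Agent.Results.MP_bac04d_nt.AllDegrees
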